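import Pool.Agent.H.MP_a0c03c_an.C

set_option autoImplicit false
open Set

namespace Pool.Agent.Results.MP_a0c03c_an.Counter

open Pool.Agent.H.MP_a0c03c_an

/-- Property (S): elements of the span of products are finite sums of products, boundedly. -/
def PropS (A : Type) [NonUnitalNormedRing A] [NormedSpace ℂ A] : Prop :=
  ∃ K : ℝ, ∀ x ∈ Submodule.span ℂ {x : A | ∃ a b, a * b = x}, ∃ l : List (A × A),
    (l.map fun p => p.1 * p.2).sum = x ∧ (l.map fun p => ‖p.1‖ * ‖p.2‖).sum ≤ K * ‖x‖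

/-- The Jacobson radical, computed in the unitization. -/
def Rad (A : Type) [NonUnitalRing A] [Module ℂ A] [IsScalarTower ℂ A A] [SMulCommClass ℂ A A] :
    Set A :=
  {a | (a : Unitization ℂ A) ∈ Ring.jacobson (Unitization ℂ A)}

theorem result : ∃ (A : Type) (_ : NonUnitalNormedCommRing A) (_ : NormedSpace ℂ A)
    (_ : IsScalarTower ℂ A A) (_ : SMulCommClass ℂ A A) (_ : CompleteSpace A)
    (B : Type) (_ : NonUnitalNormedCommRing B) (_ : NormedSpace ℂ B)
    (_ : IsScalarTower ℂ B B) (_ : SMulCommClass ℂ B B) (_ : CompleteSpace B)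
    (q : A →ₙₐ[ℂ] B), FiniteDimensional ℂ (Submodule.span ℂ (Rad A)) ∧
      Function.Surjective q ∧ (∀ a, q a = 0 ↔ a ∈ Rad A) ∧
      (∀ a, ‖q a‖ = Metric.infDist a (Rad A)) ∧ PropS A ∧ ¬ PropS B := by
  let e : Metric.closedBall (0 : ℂ) 1 := ⟨1, by simp⟩
  let e' : Metric.closedBall (0 : PUnit) 1 := ⟨0, by simp⟩
  let q : Alg D e →ₙₐ[ℂ] Alg D e' :=
    { toFun := fun a => mk a.f a.ε_f a.g 0
      map_smul' := fun _ _ => rfl
      map_zero' := rfl
      map_add' := fun _ _ => rfl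
      map_mul' := fun _ _ => rfl }
  have r : ∀ a, a ∈ Rad (Alg D e) ↔ a.f = 0 ∧ a.g = 0 := rad_iff nzd sep
  have nq : ∀ a, ‖q a‖ = max ‖a.f‖ ‖a.g‖ := fun a => by simp [q, norm_def]
  refine ⟨Alg D e, inferInstance, inferInstance, inferInstance, inferInstance, inferInstance,
    Alg D e', inferInstance, inferInstance, inferInstance, inferInstance, inferInstance, q, ?_,
    fun b => ⟨mk b.f b.ε_f b.g 0, rfl⟩, fun a => ?_, fun a => le_antisymm ?_ ?_,
    ⟨12, fun x hx => ?_⟩, fun ⟨K, hK⟩ => ?_⟩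
  · refine Submodule.finiteDimensional_of_le (S₂ := ℂ ∙ mk 0 (map_zero _) 0 1)
      (Submodule.span_le.2 fun a ha => Submodule.mem_span_singleton.2 ⟨a.l, ?_⟩)
    exact Alg.ext (by simp [((r a).1 ha).1]) (by simp [((r a).1 ha).2]) (by simp)
  · rw [r]
    exact ⟨fun h => ⟨congrArg Alg.f h, congrArg Alg.g h⟩, fun h => Alg.ext h.1 h.2 rfl⟩
  · refine (Metric.le_infDist ⟨0, (r 0).2 ⟨rfl, rfl⟩⟩).2 fun y hy => ?_
    rw [nq, dist_eq_norm]
    exact max_le (by simpa [((r y).1 hy).1] using f_le (a - y))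
      (by simpa [((r y).1 hy).2] using g_le (a - y))
  · refine (Metric.infDist_le_dist_of_mem
      ((r (mk 0 (map_zero _) 0 a.l)).2 ⟨rfl, rfl⟩)).trans_eq ?_
    rw [nq, dist_eq_norm, norm_def]
    simp
  · obtain ⟨l, -, h⟩ := propS hP rfl x hx
    exact ⟨l, h⟩
  · refine not_propS (e := e') s_not s_clos (fun p hp => ⟨_, hP p hp⟩) K fun x hx => ?_
    obtain ⟨l, h⟩ := hK x hx
    exact ⟨l, fun _ _ => ⟨trivial, trivial⟩, h⟩

end Pool.Agent.Results.MP_a0c03c_an.Counter
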